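import Pool.Agent.LibAR86.RT

set_option autoImplicit false
open CM68

namespace Pool.Agent.Results.MP_e47f08_nt.AlgebraicDegree

/-- **Hurwitz zeta values at rational points: all but polylogarithmically many rational numbers of denominator `≤ Q` satisfy no
polynomial relation.**
`hz k y = ∑_{n ≥ 0} (n + y)^(-k)` is the Hurwitz zeta value `ζ(k, y)`; `EQ w K L = w (80 K (L + 3))^(6K + 2)`;
`AtMost P C`: at most `C` elements have the property `P`; `fy y c` is `y + c` modulo one.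
`Vals k y` is the set of the ratio `ζ(k, y) / ζ(k, 1 - y)` and of all `lam * ζ(k, y) + mu * ζ(k, 1 - y)` with rational
`lam ≠ (-1)^k mu`.  `RootV V g ρ`: `ρ` is a root of a nonzero real polynomial of degree `≤ g` with coefficients in `V`.
`DenQ Q Cs y`: `y` and the shifts `c ∈ Cs` have a common denominator `≤ Q`.
`ExcQ J Cs V y`: some rational linear combination `∑ lam ζ(k, z) + mu ζ(k, 1 - z)`, `k ∈ J`, `c ∈ Cs`, `z = y + c` mod 1, not only of the cotangent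
numbers `ζ(k, z) + (-1)^k ζ(k, 1 - z)`, is in `V`.

The first two statements are the case `k = 3`, `g = 1`, `V = ℚ`: the question is the member `y = 1/4` of the family of the ratios
`ζ(3, y) / ζ(3, 1 - y)`, and all but `EQ 3 3 (log Q)` of the rational numbers `y` in `(0, 1)` of denominator `≤ Q` have an irrational ratio.
Let `Q ≥ 2`, `V` any rational subspace of the reals of dimension `≤ D`.
(1) The count for `Vals`: over all rational numbers in `(0, 1)` of denominator `≤ Q`; (1') over the moduli `q ≤ Q`: the others have no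
exceptional `x / q` in lowest terms at all; (1'') over the points `1/4 + 1/n`, `n ≤ Q`. (2) The question is the member `y = 1/4`: `ζ(3)/π^3` is a root
of a nonzero polynomial of degree `≤ g` over `V` if and only if the ratio at `y = 1/4` is. (3) Linear relations. -/
theorem result :
    ((∃ r : ℚ, (∑' n : ℕ, 1 / ((n : ℝ) + 1) ^ 3) / Real.pi ^ 3 = r) ↔
      ∃ r : ℚ, hz 3 (1 / 4) / hz 3 (1 - 1 / 4) = r) ∧
    (∀ Q : ℕ, 2 ≤ Q → AtMost (fun y : ℚ => 0 < y ∧ y < 1 ∧ y.den ≤ Q ∧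
      ∃ r : ℚ, hz 3 (y : ℝ) / hz 3 (1 - (y : ℝ)) = r) (EQ 3 3 (Real.log Q))) ∧
    (∀ k g D Q : ℕ, 2 ≤ k → 1 ≤ g → 1 ≤ D → 2 ≤ Q →
      ∀ V : Submodule ℚ ℝ, Module.Finite ℚ V → Module.finrank ℚ V ≤ D →
      AtMost (fun y : ℚ => 0 < y ∧ y < 1 ∧ y.den ≤ Q ∧ ∃ ρ ∈ Vals k (y : ℝ), RootV V g ρ)
        (EQ k (D * (2 + g).choose g) (Real.log Q)) ∧
      AtMost (fun q : ℕ => q ≤ Q ∧ ∃ x : ℕ, 0 < x ∧ x < q ∧ x.Coprime q ∧
        ∃ ρ ∈ Vals k ((x : ℝ) / q), RootV V g ρ) (EQ k (D * (2 + g).choose g) (Real.log Q)) ∧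
      AtMost (fun n : ℕ => 2 ≤ n ∧ n ≤ Q ∧ ∃ ρ ∈ Vals k (1 / 4 + 1 / (n : ℝ)), RootV V g ρ)
        (EQ k (D * (2 + g).choose g) (Real.log (4 * Q)))) ∧
    (∀ (V : Submodule ℚ ℝ) (g : ℕ), RootV V g ((∑' n : ℕ, 1 / ((n : ℝ) + 1) ^ 3) / Real.pi ^ 3) ↔
      RootV V g (hz 3 (1 / 4) / hz 3 (1 - 1 / 4))) ∧
    (∀ J : Finset ℕ, J.Nonempty → ∀ w : ℕ, (∀ k ∈ J, 2 ≤ k ∧ k ≤ w) → ∀ r D Q : ℕ, 1 ≤ r →
      1 ≤ D → 2 ≤ Q → ∀ V : Submodule ℚ ℝ, Module.Finite ℚ V → Module.finrank ℚ V ≤ D →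
      (1 : ℝ) ∈ V → ∀ Cs : Finset ℚ, Cs.card = r → (∀ c ∈ Cs, 0 ≤ c ∧ c < 1) →
      AtMost (fun y : ℚ => 0 ≤ y ∧ y < 1 ∧ DenQ Q Cs y ∧ (∀ c ∈ Cs, Int.fract (y + c) ≠ 0) ∧
        ExcQ J Cs V y) (EQ w (D * (2 * (J.card * r) + 1)) (Real.log Q))) :=
  ⟨ratio_quarter, fun _ hQ => ratio_rat hQ, fun _ _ _ _ hk hg hD hQ _ hV hVD =>
      ⟨vals_EQ hk hg hD hQ hV hVD, vals_mod hk hg hD hQ hV hVD, vals_quarter hk hg hD hQ hV hVD⟩,
    qV,
    fun _ hne _ h2 _ _ _ hr hD hQ _ hV hVD h1 _ hc hC => lin_EQ hne h2 hr hD hQ hV hVD h1 hc hC⟩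

end Pool.Agent.Results.MP_e47f08_nt.AlgebraicDegree
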