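import Pool.Agent.LibAR86.ZV

set_option autoImplicit false
open CM68

namespace Pool.Agent.Results.MP_e47f08_nt.AlgebraicRelations

/-- **`π` and several Hurwitz zeta values: almost no rational number gives an algebraic relation of small degree.**
`hz k y = ∑_{n ≥ 0} (n + y)^(-k)` is the Hurwitz zeta value `ζ(k, y)`; `fy y c` is `y + c` modulo one; `AtMost P C`: at most `C` elements
have the property `P`; `EQ w K L = w (80 K (L + 3))^(6K + 2)`.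
`DenQ Q Cs y`: `y` and the shifts `c ∈ Cs` have a common denominator `≤ Q`.
`ZeroPiQ h J Cs g y`: `π` and the numbers `ζ(k, y + c mod 1)`, `k ∈ J`, `c ∈ Cs`, satisfy a nontrivial polynomial relation over `ℚ` of degree `≤ h`
in `π` and of total degree `≤ g` in these numbers.
`ZeroVQ V J Cs g y`: a nonzero real polynomial of total degree `≤ g` with coefficients in `V` vanishes at these numbers.

Let `N = |J| |Cs|`.
(1) The degrees tend to infinity with `Q`: for all but `exp ((log Q)^(1 - η))` rational numbers `y` there is no relation over `ℚ` of degree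
`≤ (log Q)^((1 - 2η) / (N + 1))` in `π` and in these numbers.
(2) The count for relations over `ℚ` of degree `≤ h` in `π`, for every `Q ≥ 2`.
(3) The count for relations with coefficients in any rational subspace `V` of the reals of dimension `≤ D`, for every `Q ≥ 2`.
(4) The question asks for one relation of this kind: if `ζ(3) / π^3` is rational, then `y = 1 / 2` is exceptional for `J = {3}`, `Cs = {0}`, `g = 1` and
every `V` which contains `1` and `π^3`. -/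
theorem result :
    (∀ J : Finset ℕ, J.Nonempty → (∀ k ∈ J, 2 ≤ k) → ∀ r : ℕ, ∀ η : ℝ, 0 < η → η < 1 / 2 →
      ∃ Q₀ : ℕ, ∀ Q : ℕ, Q₀ ≤ Q → ∀ Cs : Finset ℚ, Cs.card = r → (∀ c ∈ Cs, 0 ≤ c ∧ c < 1) →
      AtMost (fun y : ℚ => 0 ≤ y ∧ y < 1 ∧ DenQ Q Cs y ∧ (∀ c ∈ Cs, Int.fract (y + c) ≠ 0) ∧
        ∃ h g : ℕ, (h : ℝ) ≤ Real.log Q ^ ((1 - 2 * η) / ((J.card * r : ℝ) + 1)) ∧
        (g : ℝ) ≤ Real.log Q ^ ((1 - 2 * η) / ((J.card * r : ℝ) + 1)) ∧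
        ZeroPiQ h J Cs g y) (Real.exp (Real.log Q ^ (1 - η)))) ∧
    (∀ w h g r Q : ℕ, 1 ≤ w → 1 ≤ g → 2 ≤ Q → ∀ J : Finset ℕ, (∀ k ∈ J, 2 ≤ k ∧ k ≤ w) →
      ∀ Cs : Finset ℚ, Cs.card = r → (∀ c ∈ Cs, 0 ≤ c ∧ c < 1) →
      AtMost (fun y : ℚ => 0 ≤ y ∧ y < 1 ∧ DenQ Q Cs y ∧ (∀ c ∈ Cs, Int.fract (y + c) ≠ 0) ∧
        ZeroPiQ h J Cs g y) (EQ w ((h + 1) * (J.card * r + g).choose g) (Real.log Q))) ∧
    (∀ w g r D Q : ℕ, 1 ≤ w → 1 ≤ g → 1 ≤ D → 2 ≤ Q → ∀ J : Finset ℕ, (∀ k ∈ J, 2 ≤ k ∧ k ≤ w) →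
      ∀ Cs : Finset ℚ, Cs.card = r → (∀ c ∈ Cs, 0 ≤ c ∧ c < 1) →
      ∀ V : Submodule ℚ ℝ, Module.Finite ℚ V → Module.finrank ℚ V ≤ D →
      AtMost (fun y : ℚ => 0 ≤ y ∧ y < 1 ∧ DenQ Q Cs y ∧ (∀ c ∈ Cs, Int.fract (y + c) ≠ 0) ∧
        ZeroVQ V J Cs g y) (EQ w (D * (J.card * r + g).choose g) (Real.log Q))) ∧
    (∀ V : Submodule ℚ ℝ, (1 : ℝ) ∈ V → Real.pi ^ 3 ∈ V →
      (∃ t : ℚ, ∑' n : ℕ, 1 / ((n : ℝ) + 1) ^ 3 = t * Real.pi ^ 3) →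
      ZeroVQ V {3} {0} 1 (1 / 2)) :=
  ⟨fun J hne h2 r _ h0 h1 => tuple_growingQ J hne h2 r h0 h1,
    fun _ h _ _ _ hw hg hQ _ h2 _ hC hC1 => zeroPi_EQ hw h2 h hg hQ hC hC1,
    fun _ _ _ _ _ hw hg hD hQ _ h2 _ hC hC1 _ hV hVD => zeroV_EQ hw h2 hg hD hQ hV hVD hC hC1,
    fun _ h1 h2 H => zeroVQ_half h1 h2 H⟩

end Pool.Agent.Results.MP_e47f08_nt.AlgebraicRelations
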