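import Pool.Agent.LibHZ89.Cor
import Pool.Agent.LibHZ8.WIN
import Pool.Agent.LibHZ8.EV

set_option autoImplicit false
open HZ89

namespace Pool.Agent.Results.MP_e47f08_nt.HurwitzDimension

/-- The link with the Hurwitz zeta function of Mathlib. -/
theorem hur_eq_even (y : ℝ) : (hur y : ℂ) = 2 * HurwitzZeta.hurwitzZetaEven (y : UnitAddCircle) 3 := by
  have h := HurwitzZeta.hasSum_int_hurwitzZetaEven y (s := 3) (by norm_num)
  have h2 := h.tsum_eq
  rw [← h2, ← tsum_mul_left]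
  unfold hur
  rw [Complex.ofReal_tsum]
  refine tsum_congr fun n => ?_
  push_cast
  have h3 : ((3 : ℂ)) = ((3 : ℕ) : ℂ) := by norm_num
  rw [h3, Complex.cpow_natCast]
  ring

/-- The points `1/2 + j/q`. -/
theorem near_half (q N : ℕ) (hq : 2 ≤ q) (he : Even q) (hN : N ≤ q)
    (h : 800 * Real.log q ^ 2 ≤ N) :
    ∃ j : ℕ, 1 ≤ j ∧ j ≤ N ∧ ∀ a b : ℚ, hur (1 / 2 + (j : ℝ) / q) ≠ a + b * Real.pi ^ 3 := by
  obtain ⟨K, hK⟩ := he
  have hq0 : (0 : ℝ) < q := by exact_mod_cast (by omega : 0 < q)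
  have hfin : Module.Finite ℚ (Submodule.span ℚ {(Real.pi ^ 3 : ℝ)}) := by
    have := Module.Finite.span_finset ℚ ({(Real.pi ^ 3 : ℝ)} : Finset ℝ)
    rwa [Finset.coe_singleton] at this
  have hrank : Module.finrank ℚ (Submodule.span ℚ {(Real.pi ^ 3 : ℝ)}) = 1 :=
    finrank_span_singleton (by positivity)
  have hNr : (N : ℝ) ≤ q := by exact_mod_cast hN
  obtain ⟨j, hj, hj2⟩ := HZ7.progression hq (Submodule.span ℚ {(Real.pi ^ 3 : ℝ)}) hfin (K + 1) 1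
    (Nat.coprime_one_left q) (by
      rw [hrank]
      push_cast
      linarith)
  rw [hrank] at hj
  push_cast at hj
  have hjN : (j : ℝ) < N := by linarith
  refine ⟨j + 1, by omega, Nat.cast_lt.1 hjN, fun a b hab => hj2 ?_⟩
  have e1 : (((K + 1 + 1 * j : ℕ) : ℝ)) / q = 1 / 2 + ((j + 1 : ℕ) : ℝ) / q := by
    have : (q : ℝ) = K + K := by rw [hK]; push_cast; ring
    have hK0 : (K : ℝ) ≠ 0 := by
      intro h0
      rw [h0] at this
      linarith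
    push_cast
    rw [this]
    field_simp
    ring
  rw [e1, hab, add_comm]
  apply Submodule.add_mem_sup
  · have h1 : (b : ℝ) * Real.pi ^ 3 = b • (Real.pi ^ 3 : ℝ) := by rw [Rat.smul_def]
    rw [h1]
    exact Submodule.smul_mem _ _ (Submodule.mem_span_singleton_self _)
  · have h1 : (a : ℝ) = a • (1 : ℝ) := by rw [Rat.smul_def, mul_one]
    rw [h1]
    exact Submodule.smul_mem _ _ (Submodule.mem_span_singleton_self _)

/-- `hur y = ∑_{n ∈ ℤ} |n + y|⁻³`; this is `ζ(3, y) + ζ(3, 1 - y)` for `0 < y < 1`, and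
`hur (1/2) = 14 ζ(3)`.  Let `V` be a rational subspace of the real numbers of finite dimension `D`,
`q ≥ 2`, and let `E` be the set of the integers `x` with `hur (x / q) ∈ V + ℚ`.

(1) If `400 (D + 1)² (log q)² ≤ N ≤ q`, then at least `N / (20 (D + 1) (log q)²)` of the `N`
consecutive terms `a + d t`, `t < N`, of an arithmetic progression with `d` prime to `q` are not in
`E`.
(2) The values at `N ≤ q` consecutive terms span a space of dimension at least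
`√N / (15 log q) - 1`.
(3) For even `q` and `800 (log q)² ≤ N ≤ q` one of the numbers `hur (1/2 + j/q)`, `1 ≤ j ≤ N`, is not
in `ℚ + ℚ π³`.
(4) If `320 (D + 1)² (log q)² 3 ^ ω(q) ≤ q`, then at least `q / (36 (D + 1) (log q)² 2 ^ ω(q))` of the
`x` in `(0, q/2)` prime to `q` are not in `E`.
(5) For every `ε > 0` there is `c > 0` such that the values at these `x` span a space of dimension
greater than `c q ^ (1/2 - ε) - 1`.
(6) For a finite set `T` of rational numbers at most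
`|T| ^ (⌊q/2⌋ + 1 + D + 1 - √q / (30 log q))` of the `|T| ^ (⌊q/2⌋ + 1)` even functions `f : ZMod q → T`
have `∑ f(n) / n³ ∈ V` (`f = 1` gives `ζ(3)`).
(7), (8) The value at `1/2`, and the link with the Hurwitz zeta function. -/
theorem result :
    (∀ q : ℕ, 2 ≤ q → ∀ V : Submodule ℚ ℝ, Module.Finite ℚ V → ∀ a d N : ℕ, d.Coprime q → N ≤ q →
      400 * ((Module.finrank ℚ V : ℝ) + 1) ^ 2 * Real.log q ^ 2 ≤ N → ∃ G : Finset ℕ,
        (N : ℝ) ≤ 20 * ((Module.finrank ℚ V : ℝ) + 1) * Real.log q ^ 2 * G.card ∧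
        ∀ t ∈ G, t < N ∧
          hur (((a + d * t : ℕ) : ℝ) / q) ∉ V ⊔ Submodule.span ℚ {(1 : ℝ)}) ∧
    (∀ q : ℕ, 2 ≤ q → ∀ a d N : ℕ, d.Coprime q → N ≤ q →
      Real.sqrt N / (15 * Real.log q) ≤ (Module.finrank ℚ (Submodule.span ℚ
        ((fun t : ℕ => hur (((a + d * t : ℕ) : ℝ) / q)) '' {t : ℕ | t < N})) : ℝ) + 1) ∧
    (∀ q N : ℕ, 2 ≤ q → Even q → N ≤ q → 800 * Real.log q ^ 2 ≤ N →
      ∃ j : ℕ, 1 ≤ j ∧ j ≤ N ∧ ∀ a b : ℚ, hur (1 / 2 + (j : ℝ) / q) ≠ a + b * Real.pi ^ 3) ∧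
    (∀ q : ℕ, 2 ≤ q → ∀ V : Submodule ℚ ℝ, Module.Finite ℚ V →
      320 * ((Module.finrank ℚ V : ℝ) + 1) ^ 2 * Real.log q ^ 2 * 3 ^ q.primeFactors.card ≤ q →
      ∃ G : Finset ℕ, (q : ℝ) ≤ 36 * ((Module.finrank ℚ V : ℝ) + 1) * Real.log q ^ 2 *
        2 ^ q.primeFactors.card * G.card ∧ ∀ x ∈ G, 1 ≤ x ∧ 2 * x < q ∧ x.Coprime q ∧
          hur ((x : ℝ) / q) ∉ V ⊔ Submodule.span ℚ {(1 : ℝ)}) ∧
    (∀ ε : ℝ, 0 < ε → ∃ c : ℝ, 0 < c ∧ ∀ q : ℕ, 2 ≤ q →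
      c * (q : ℝ) ^ (1 / 2 - ε) < (Module.finrank ℚ (Submodule.span ℚ
        ((fun x : ℕ => hur ((x : ℝ) / q)) '' {x : ℕ | 1 ≤ x ∧ 2 * x < q ∧ x.Coprime q})) : ℝ) +
          1) ∧
    (∀ q : ℕ, 2 ≤ q → ∀ V : Submodule ℚ ℝ, Module.Finite ℚ V → ∀ T : Finset ℚ, 2 ≤ T.card →
      ∀ F : Finset (ZMod q → ℚ), (∀ f ∈ F, (∀ j, f j ∈ T) ∧ (∀ j, f (-j) = f j) ∧
        ∑' n : ℕ, (f (n : ZMod q) : ℝ) / (n : ℝ) ^ 3 ∈ V) →
        (F.card : ℝ) ≤ (T.card : ℝ) ^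
          (((q / 2 + 1 : ℕ) : ℝ) + Module.finrank ℚ V + 1 - Real.sqrt q / (30 * Real.log q))) ∧
    (hur (1 / 2) = 14 * ∑' n : ℕ, 1 / ((n : ℝ) + 1) ^ 3) ∧
    (∀ y : ℝ, (hur y : ℂ) = 2 * HurwitzZeta.hurwitzZetaEven (y : UnitAddCircle) 3) := by
  classical
  refine ⟨fun q hq V hV a d N hd hN h => ?_, fun q hq a d N hd hN => ?_,
    fun q N hq he hN h => near_half q N hq he hN h, fun q hq V hV h => ?_, fun ε hε => ?_,
    fun q hq V hV T hT F hF => HZ8.even_family hq V hV T hT F hF, hur_half, hur_eq_even⟩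
  · refine ⟨(Finset.range N).filter fun t =>
      hur (((a + d * t : ℕ) : ℝ) / q) ∉ V ⊔ Submodule.span ℚ {(1 : ℝ)}, ?_, fun t ht => ?_⟩
    · exact HZ8.window_count hq V hV a d N hd hN h _ fun t ht h1 =>
        Finset.mem_filter.2 ⟨Finset.mem_range.2 ht, h1⟩
    · exact ⟨Finset.mem_range.1 (Finset.mem_filter.1 ht).1, (Finset.mem_filter.1 ht).2⟩
  · have h := HZ7.dimension hq hN a d hd
    have e : ((fun t : ℕ => hur (((a + d * t : ℕ) : ℝ) / q)) '' {t : ℕ | t < N}) =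
        (((Finset.range N).image fun j : ℕ => hur (((a + d * j : ℕ) : ℝ) / q) : Finset ℝ) :
          Set ℝ) := by
      ext y
      simp only [Set.mem_image, Set.mem_ofPred_eq, Finset.coe_image, Finset.coe_range, Set.mem_Iio]
    rw [e]
    exact h
  · refine ⟨(Finset.range q).filter fun x => 1 ≤ x ∧ 2 * x < q ∧ x.Coprime q ∧
      hur ((x : ℝ) / q) ∉ V ⊔ Submodule.span ℚ {(1 : ℝ)}, ?_, fun x hx => (Finset.mem_filter.1 hx).2⟩
    exact HZ8.coprime_count8 hq V hV h _ fun x h1 h2 h3 h4 =>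
      Finset.mem_filter.2 ⟨Finset.mem_range.2 (by omega), h1, h2, h3, h4⟩
  · obtain ⟨c, hc, h⟩ := HZ8.dim_coprime hε
    refine ⟨c, hc, fun q hq => ?_⟩
    have hfin : Module.Finite ℚ (Submodule.span ℚ
        ((fun x : ℕ => hur ((x : ℝ) / q)) '' {x : ℕ | 1 ≤ x ∧ 2 * x < q ∧ x.Coprime q})) := by
      refine FiniteDimensional.span_of_finite ℚ (Set.Finite.image _ ?_)
      refine (Finset.finite_toSet (Finset.range q)).subset fun x hx => ?_
      rw [Set.mem_ofPred_eq] at hx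
      rw [Finset.mem_coe, Finset.mem_range]
      omega
    exact h q hq _ hfin fun x h1 h2 h3 => Submodule.subset_span ⟨x, ⟨h1, h2, h3⟩, rfl⟩

end Pool.Agent.Results.MP_e47f08_nt.HurwitzDimension
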