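import Pool.Agent.LibHZ89.Cor
import Pool.Agent.LibHZ10.Uni

set_option autoImplicit false
open HZ89

namespace Pool.Agent.Results.MP_e47f08_nt.HurwitzMeasure

/-- The link with the Hurwitz zeta function of Mathlib. -/
theorem hur_eq_even (y : ℝ) : (hur y : ℂ) = 2 * HurwitzZeta.hurwitzZetaEven (y : UnitAddCircle) 3 := by
  have h := HurwitzZeta.hasSum_int_hurwitzZetaEven y (s := 3) (by norm_num)
  have h2 := h.tsum_eq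
  rw [← h2, ← tsum_mul_left]
  unfold hur
  rw [Complex.ofReal_tsum]
  refine tsum_congr fun n => ?_
  push_cast
  have h3 : ((3 : ℂ)) = ((3 : ℕ) : ℂ) := by norm_num
  rw [h3, Complex.cpow_natCast]
  ring

/-- `hur y = ∑_{n ∈ ℤ} |n + y|⁻³`; this is `ζ(3, y) + ζ(3, 1 - y)` for `0 < y < 1`, and
`hur (1/2) = 14 ζ(3)`.  Let `ξ 0, ..., ξ (D - 1)` be arbitrary real numbers, `q ≥ 2`, `e ≥ 1`, `H ≥ 1`.

(1) Let `30000 e³ (D + 1)² (log q)² ≤ N ≤ q` and `1 ≤ b ≤ H`.  At least `N / (110 e² (D + 1) (log q)²)`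
of the `N` consecutive terms `x = x₀ + h t`, `t < N`, of an arithmetic progression with `h` prime to
`q` satisfy, for ALL integers `a` and `c i` with `|c i| ≤ H`,
`|b hur (x/q) - a - ∑ c i ξ i| ≥ exp (- 300000 e⁴ (D + 1)³ (log q)³) H ^ (- (1 + 1/e) (D + 1))`.
(2) Let `2 N ≤ q` and `1 ≤ b ≤ H`.  All but `4 N exp (- (log N)³ / (500 e² (D + 1) (log q)²))` of these
`N` terms satisfy, for all integers `a` and `c i` with `|c i| ≤ H`,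
`|b hur (x/q) - a - ∑ c i ξ i| ≥ exp (- N) H ^ (- (1 + 1/e) (D + 1))`.
(3) Let `2 N ≤ q`.  All but `4 N exp (- (log N)³ / (80 (D + 1) (log q)²))` of the terms satisfy, for all
integers `1 ≤ b ≤ H`, `a` and `c i` with `|c i| ≤ H`,
`|b hur (x/q) - a - ∑ c i ξ i| ≥ exp (- N) H ^ (- 60 (D + 1)² (log q / log N)²)`.
(4) Let `2 N ≤ q`.  All but `(J + 1) 4 N exp (- (log N)³ / (80 (D + 1) (log q)²))` of the terms satisfy,
for all `H` with `2 ≤ H ≤ 2 ^ 2 ^ J` and all integers `1 ≤ b ≤ H`, `a` and `c i` with `|c i| ≤ H`,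
`|b hur (x/q) - a - ∑ c i ξ i| ≥ exp (- N) H ^ (- 120 (D + 1)² (log q / log N)²)`.
(5), (6) The value at `1/2`, and the link with the Hurwitz zeta function. -/
theorem result :
    (∀ e q D : ℕ, 1 ≤ e → 2 ≤ q → ∀ ξ : Fin D → ℝ, ∀ x₀ h N : ℕ, h.Coprime q → N ≤ q →
      30000 * (e : ℝ) ^ 3 * ((D : ℝ) + 1) ^ 2 * Real.log q ^ 2 ≤ N →
      ∀ H b : ℕ, 1 ≤ b → b ≤ H → ∃ G : Finset ℕ,
        (N : ℝ) ≤ 110 * (e : ℝ) ^ 2 * ((D : ℝ) + 1) * Real.log q ^ 2 * G.card ∧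
        ∀ t ∈ G, t < N ∧ ∀ (a : ℤ) (c : Fin D → ℤ), (∀ i, |c i| ≤ H) →
          Real.exp (-(300000 * (e : ℝ) ^ 4 * ((D : ℝ) + 1) ^ 3 * Real.log q ^ 3)) *
              (H : ℝ) ^ (-((1 + 1 / (e : ℝ)) * ((D : ℝ) + 1))) ≤
            |b * hur (((x₀ + h * t : ℕ) : ℝ) / q) - a - ∑ i, c i * ξ i|) ∧
    (∀ e q D : ℕ, 1 ≤ e → ∀ ξ : Fin D → ℝ, ∀ x₀ h N : ℕ, h.Coprime q → 2 * N ≤ q →
      ∀ H b : ℕ, 1 ≤ b → b ≤ H → ∃ E : Finset ℕ,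
        (E.card : ℝ) ≤ 4 * N * Real.exp (-((Real.log N) ^ 3 /
          (500 * (e : ℝ) ^ 2 * ((D : ℝ) + 1) * (Real.log q) ^ 2))) ∧
        ∀ t < N, t ∉ E → ∀ (a : ℤ) (c : Fin D → ℤ), (∀ i, |c i| ≤ H) →
          Real.exp (-(N : ℝ)) * (H : ℝ) ^ (-((1 + 1 / (e : ℝ)) * ((D : ℝ) + 1))) ≤
            |b * hur (((x₀ + h * t : ℕ) : ℝ) / q) - a - ∑ i, c i * ξ i|) ∧
    (∀ q D : ℕ, ∀ ξ : Fin D → ℝ, ∀ x₀ h N : ℕ, h.Coprime q → 2 * N ≤ q →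
      ∀ H : ℕ, 1 ≤ H → ∃ E : Finset ℕ,
        (E.card : ℝ) ≤ 4 * N * Real.exp (-((Real.log N) ^ 3 /
          (80 * ((D : ℝ) + 1) * (Real.log q) ^ 2))) ∧
        ∀ t < N, t ∉ E → ∀ (b : ℕ) (a : ℤ) (c : Fin D → ℤ), 1 ≤ b → b ≤ H → (∀ i, |c i| ≤ H) →
          Real.exp (-(N : ℝ)) *
              (H : ℝ) ^ (-(60 * ((D : ℝ) + 1) ^ 2 * (Real.log q / Real.log N) ^ 2)) ≤
            |b * hur (((x₀ + h * t : ℕ) : ℝ) / q) - a - ∑ i, c i * ξ i|) ∧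
    (∀ q D J : ℕ, ∀ ξ : Fin D → ℝ, ∀ x₀ h N : ℕ, h.Coprime q → 2 * N ≤ q →
      ∃ E : Finset ℕ,
        (E.card : ℝ) ≤ (J + 1) * (4 * N * Real.exp (-((Real.log N) ^ 3 /
          (80 * ((D : ℝ) + 1) * (Real.log q) ^ 2)))) ∧
        ∀ t < N, t ∉ E → ∀ H : ℕ, 2 ≤ H → H ≤ 2 ^ 2 ^ J →
          ∀ (b : ℕ) (a : ℤ) (c : Fin D → ℤ), 1 ≤ b → b ≤ H → (∀ i, |c i| ≤ H) →
          Real.exp (-(N : ℝ)) *
              (H : ℝ) ^ (-(120 * ((D : ℝ) + 1) ^ 2 * (Real.log q / Real.log N) ^ 2)) ≤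
            |b * hur (((x₀ + h * t : ℕ) : ℝ) / q) - a - ∑ i, c i * ξ i|) ∧
    (hur (1 / 2) = 14 * ∑' n : ℕ, 1 / ((n : ℝ) + 1) ^ 3) ∧
    (∀ y : ℝ, (hur y : ℂ) = 2 * HurwitzZeta.hurwitzZetaEven (y : UnitAddCircle) 3) := by
  classical
  refine ⟨fun e q D he hq ξ x₀ h N hh hN hNb H b hb hbH => ?_,
    fun e q D he ξ x₀ h N hh hN H b hb hbH => ?_, fun q D ξ x₀ h N hh hN H hH => ?_,
    fun q D J ξ x₀ h N hh hN => HZ10.densityC x₀ h N J hh hN ξ, hur_half, hur_eq_even⟩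
  · refine ⟨(Finset.range N).filter fun t => ∀ (a : ℤ) (c : Fin D → ℤ), (∀ i, |c i| ≤ H) →
          Real.exp (-(300000 * (e : ℝ) ^ 4 * ((D : ℝ) + 1) ^ 3 * Real.log q ^ 3)) *
              (H : ℝ) ^ (-((1 + 1 / (e : ℝ)) * ((D : ℝ) + 1))) ≤
            |b * hur (((x₀ + h * t : ℕ) : ℝ) / q) - a - ∑ i, c i * ξ i|, ?_, fun t ht => ?_⟩
    · exact HZ10.windowA he x₀ h N hh hN hNb hq ξ hb hbH _ fun t ht h1 =>
        Finset.mem_filter.2 ⟨Finset.mem_range.2 ht, h1⟩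
    · exact ⟨Finset.mem_range.1 (Finset.mem_filter.1 ht).1, (Finset.mem_filter.1 ht).2⟩
  · refine ⟨(Finset.range N).filter fun t => ∃ (a : ℤ) (d : Fin D → ℤ), (∀ i, |d i| ≤ H) ∧
      |b * hur (((x₀ + h * t : ℕ) : ℝ) / q) - a - ∑ i, d i * ξ i| <
        Real.exp (-(N : ℝ)) * (H : ℝ) ^ (-((1 + 1 / (e : ℝ)) * ((D : ℝ) + 1))), ?_,
      fun t ht hE a c hc => ?_⟩
    · exact HZ10.densityA he x₀ h N hh hN ξ hb hbH _ fun t ht =>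
        ⟨Finset.mem_range.1 (Finset.mem_filter.1 ht).1, (Finset.mem_filter.1 ht).2⟩
    · by_contra hcon
      exact hE (Finset.mem_filter.2 ⟨Finset.mem_range.2 ht, a, c, hc, not_le.1 hcon⟩)
  · refine ⟨(Finset.range N).filter fun t => ∃ (b : ℕ) (a : ℤ) (d : Fin D → ℤ), 1 ≤ b ∧ b ≤ H ∧
      (∀ i, |d i| ≤ H) ∧ |b * hur (((x₀ + h * t : ℕ) : ℝ) / q) - a - ∑ i, d i * ξ i| <
        Real.exp (-(N : ℝ)) *
          (H : ℝ) ^ (-(60 * ((D : ℝ) + 1) ^ 2 * (Real.log q / Real.log N) ^ 2)), ?_,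
      fun t ht hE b a c hb hbH hc => ?_⟩
    · exact HZ10.densityB x₀ h N hh hN ξ hH _ fun t ht =>
        ⟨Finset.mem_range.1 (Finset.mem_filter.1 ht).1, (Finset.mem_filter.1 ht).2⟩
    · by_contra hcon
      exact hE (Finset.mem_filter.2
        ⟨Finset.mem_range.2 ht, b, a, c, hb, hbH, hc, not_le.1 hcon⟩)

end Pool.Agent.Results.MP_e47f08_nt.HurwitzMeasure
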